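import Mathlib

namespace Pool.Agent.Results.MP_e33ffa_co.SevenColours

/-- The snapshot number `j`: the given graphs for `1 ≤ j ≤ T`, the edgeless graph otherwise. -/
def snap {V : Type} {T : ℕ} (G : Fin T → SimpleGraph V) (j : ℕ) : SimpleGraph V :=
  if h : 1 ≤ j ∧ j ≤ T then G ⟨j - 1, by omega⟩ else ⊥

/-- Proper colouring of `H`. -/
def Proper {V : Type} {k : ℕ} (H : SimpleGraph V) (c : V → Fin k) : Prop :=
  ∀ u v, H.Adj u v → c u ≠ c v

/-- Two colourings compatible on `H`. -/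
def Compat {V : Type} {k : ℕ} (H : SimpleGraph V) (c c' : V → Fin k) : Prop :=
  ∀ u v, H.Adj u v → c u ≠ c v ∧ c' u ≠ c' v ∧ c u ≠ c' v ∧ c' u ≠ c v

/-- A temporal `k`-colouring exists (only `c 1, ..., c T` matter). -/
def TempCol {V : Type} {T : ℕ} (G : Fin T → SimpleGraph V) (k : ℕ) : Prop :=
  ∃ c : ℕ → V → Fin k,
    (∀ j, 1 ≤ j → j ≤ T → Proper (snap G (j - 1) ⊔ snap G j ⊔ snap G (j + 1)) (c j)) ∧
    ∀ j, 1 ≤ j → j + 1 ≤ T → Compat (snap G j ⊔ snap G (j + 1)) (c j) (c (j + 1))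

/-- The temporal chromatic number. -/
noncomputable def chi {V : Type} {T : ℕ} (G : Fin T → SimpleGraph V) : ℕ :=
  sInf {k | TempCol G k}

set_option synthInstance.maxSize 4000 in
lemma pig0 : ∀ a b : Fin 6, a ≠ b → ∀ c, a ≠ c → b ≠ c → ∀ d, a ≠ d → b ≠ d → c ≠ d →
    ∀ e, a ≠ e → b ≠ e → c ≠ e → d ≠ e → ∀ f, a ≠ f → b ≠ f → c ≠ f → d ≠ f → e ≠ f →
    ∀ g, a ≠ g → b ≠ g → c ≠ g → d ≠ g → e ≠ g → f ≠ g → False := by decide +kernel

lemma pig (a b c d e f g : Fin 6) (h1 : a ≠ b) (h2 : a ≠ c) (h3 : b ≠ c) (h4 : a ≠ d) (h5 : b ≠ d)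
    (h6 : c ≠ d) (h7 : a ≠ e) (h8 : b ≠ e) (h9 : c ≠ e) (h10 : d ≠ e) (h11 : a ≠ f) (h12 : b ≠ f)
    (h13 : c ≠ f) (h14 : d ≠ f) (h15 : e ≠ f) (h16 : a ≠ g) (h17 : b ≠ g) (h18 : c ≠ g)
    (h19 : d ≠ g) (h20 : e ≠ g) (h21 : f ≠ g) : False :=
  pig0 a b h1 c h2 h3 d h4 h5 h6 e h7 h8 h9 h10 f h11 h12 h13 h14 h15 g h16 h17 h18 h19 h20 h21

def R (i : ℕ) (x p : ℕ → Fin 6) : Prop :=
  ∀ s t, (1 ≤ s ∧ s ≤ 8 ∧ 1 ≤ t ∧ t ≤ 8 ∧ i ≤ s + 1 ∧ s ≤ i + 1 ∧ i ≤ t + 1 ∧ t ≤ i + 1 ∧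
    s ≤ t + 1 ∧ t ≤ s + 1) → x s ≠ p t

def Closed (Y : Set (ℕ → Fin 6)) : Prop :=
  ∀ p : ℕ → ℕ → Fin 6, (∀ i, p i ∈ Y) → ∃ x ∈ Y, ∀ i, 1 ≤ i → i ≤ 8 → R i x (p i)

lemma ch6 {Y : Set (ℕ → Fin 6)} (hY : Closed Y) (b : ℕ) (h1 : 1 ≤ b) (h2 : b + 4 ≤ 8)
    {r p q s t z : ℕ → Fin 6} (hr : r ∈ Y) (hp : p ∈ Y) (hq : q ∈ Y) (hs : s ∈ Y) (ht : t ∈ Y)
    (hz : z ∈ Y) : ∃ x ∈ Y, R b x r ∧ R (b + 1) x p ∧ R (b + 2) x q ∧ R (b + 3) x s ∧
      R (b + 4) x t ∧ (b + 5 ≤ 8 → R (b + 5) x z) := by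
  obtain ⟨x, hx, h⟩ := hY (fun i => if i = b then r else if i = b + 1 then p else
    if i = b + 2 then q else if i = b + 3 then s else if i = b + 4 then t else z)
    (fun i => by split_ifs <;> assumption)
  refine ⟨x, hx, ?_, ?_, ?_, ?_, ?_, fun h3 => ?_⟩
  · simpa using h b h1 (by omega)
  · simpa using h (b + 1) (by omega) (by omega)
  · simpa using h (b + 2) (by omega) (by omega)
  · simpa using h (b + 3) (by omega) (by omega)
  · simpa using h (b + 4) (by omega) (by omega)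
  · simpa using h (b + 5) (by omega) (by omega)

lemma auxA {Y : Set (ℕ → Fin 6)} (hY : Closed Y) (b : ℕ) (h1 : 1 ≤ b) (h2 : b + 4 ≤ 8)
    {q x : ℕ → Fin 6} (hq : q ∈ Y) (hx : x ∈ Y)
    (a1 : q (b + 1) ≠ q (b + 2)) (a2 : x (b + 1) ≠ x (b + 2)) (a3 : x (b + 1) ≠ x (b + 3))
    (a4 : x (b + 2) ≠ x (b + 3)) (a5 : q (b + 1) ≠ x (b + 1)) (a6 : q (b + 1) ≠ x (b + 2))
    (a7 : q (b + 1) ≠ x (b + 3)) (a8 : q (b + 2) ≠ x (b + 1)) (a9 : q (b + 2) ≠ x (b + 2))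
    (a10 : q (b + 2) ≠ x (b + 3)) : False := by
  obtain ⟨y, hy, -, k1, k2, -⟩ := ch6 hY b h1 h2 hx hq hx hx hx hx
  obtain ⟨z, -, -, l1, l2, l3, -⟩ := ch6 hY b h1 h2 hx hq hx hy hx hx
  have := k1 (b + 2) (b + 1) (by omega)
  have := k1 (b + 2) (b + 2) (by omega)
  have := k2 (b + 2) (b + 1) (by omega)
  have := k2 (b + 2) (b + 2) (by omega)
  have := k2 (b + 2) (b + 3) (by omega)
  have := l1 (b + 2) (b + 1) (by omega)
  have := l1 (b + 2) (b + 2) (by omega)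
  have := l2 (b + 2) (b + 1) (by omega)
  have := l2 (b + 2) (b + 2) (by omega)
  have := l2 (b + 2) (b + 3) (by omega)
  have := l3 (b + 2) (b + 2) (by omega)
  apply pig (q (b + 1)) (q (b + 2)) (x (b + 1)) (x (b + 2)) (x (b + 3)) (y (b + 2)) (z (b + 2)) <;>
    first | assumption | exact Ne.symm ‹_›

lemma lemA {Y : Set (ℕ → Fin 6)} (hY : Closed Y) (b : ℕ) (h1 : 1 ≤ b) (h2 : b + 4 ≤ 8)
    {p q : ℕ → Fin 6} (hp : p ∈ Y) (hq : q ∈ Y)
    (mp : p (b + 1) ≠ p (b + 2)) (mq : q (b + 1) ≠ q (b + 2))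
    (d1 : p (b + 1) ≠ q (b + 1)) (d2 : p (b + 1) ≠ q (b + 2))
    (d3 : p (b + 2) ≠ q (b + 1)) (d4 : p (b + 2) ≠ q (b + 2)) : False := by
  have out : ∀ x : ℕ → Fin 6, R (b + 1) x p → R (b + 2) x q → ∀ s, s = b + 1 ∨ s = b + 2 →
      x s ≠ p (b + 1) ∧ x s ≠ p (b + 2) ∧ x s ≠ q (b + 1) ∧ x s ≠ q (b + 2) :=
    fun x k1 k2 s hs => ⟨k1 _ _ (by omega), k1 _ _ (by omega), k2 _ _ (by omega), k2 _ _ (by omega)⟩
  obtain ⟨x1, hx1, -, k1, k2, -⟩ := ch6 hY b h1 h2 hp hp hq hp hp hp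
  obtain ⟨x2, hx2, -, l1, l2, l3, -⟩ := ch6 hY b h1 h2 hp hp hq hx1 hp hp
  obtain ⟨v1, v2, v3, v4⟩ := out x1 k1 k2 (b + 1) (Or.inl rfl)
  obtain ⟨s, hs, hsv, u1, u2, u3, u4⟩ : ∃ s ∈ Y, s (b + 2) ≠ x1 (b + 1) ∧
      s (b + 2) ≠ p (b + 1) ∧ s (b + 2) ≠ p (b + 2) ∧ s (b + 2) ≠ q (b + 1) ∧
      s (b + 2) ≠ q (b + 2) := by
    by_cases h : x1 (b + 2) = x1 (b + 1)
    · exact ⟨x2, hx2, h ▸ l3 (b + 2) (b + 2) (by omega), out x2 l1 l2 _ (Or.inr rfl)⟩
    · exact ⟨x1, hx1, h, out x1 k1 k2 _ (Or.inr rfl)⟩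
  have forced : ∀ x ∈ Y, R b x x1 → R (b + 1) x p → R (b + 2) x q → R (b + 3) x s →
      x (b + 3) = x1 (b + 1) := by
    intro x hx r0 r1 r2 r3
    obtain ⟨a1, a2, a3, a4⟩ := out x r1 r2 (b + 1) (Or.inl rfl)
    obtain ⟨b1, b2, b3, b4⟩ := out x r1 r2 (b + 2) (Or.inr rfl)
    have c1 := r0 (b + 1) (b + 1) (by omega)
    have c2 := r3 (b + 2) (b + 2) (by omega)
    have e1 : x (b + 1) = s (b + 2) := by
      by_contra hne
      apply pig (p (b + 1)) (p (b + 2)) (q (b + 1)) (q (b + 2)) (x (b + 1)) (s (b + 2))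
        (x1 (b + 1)) <;> first | assumption | exact Ne.symm ‹_›
    have e2 : x (b + 2) = x1 (b + 1) := by
      by_contra hne
      apply pig (p (b + 1)) (p (b + 2)) (q (b + 1)) (q (b + 2)) (x (b + 2)) (s (b + 2))
        (x1 (b + 1)) <;> first | assumption | exact Ne.symm ‹_›
    have mx : x (b + 1) ≠ x (b + 2) := by rw [e1, e2]; exact hsv
    rw [← e2]
    by_contra hw
    by_cases w1 : x (b + 3) = x (b + 1)
    · obtain ⟨y, -, -, m1, m2, m3, -⟩ := ch6 hY b h1 h2 hx hp hq hx hx hx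
      obtain ⟨f1, f2, f3, f4⟩ := out y m1 m2 (b + 2) (Or.inr rfl)
      have f5 := m3 (b + 2) (b + 2) (by omega)
      have f6 := m3 (b + 2) (b + 3) (by omega)
      rw [w1] at f6
      apply pig (p (b + 1)) (p (b + 2)) (q (b + 1)) (q (b + 2)) (x (b + 1)) (x (b + 2))
        (y (b + 2)) <;> first | assumption | exact Ne.symm ‹_›
    by_cases w2 : x (b + 3) = q (b + 1) ∨ x (b + 3) = q (b + 2)
    · refine auxA hY b h1 h2 hp hx mp mx (Ne.symm w1) (Ne.symm hw) a1.symm b1.symm ?_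
        a2.symm b2.symm ?_ <;> rcases w2 with w2 | w2 <;> rw [w2] <;> assumption
    · push Not at w2
      exact auxA hY b h1 h2 hq hx mq mx (Ne.symm w1) (Ne.symm hw) a3.symm b3.symm w2.1.symm
        a4.symm b4.symm w2.2.symm
  obtain ⟨x, hx, r0, r1, r2, r3, -⟩ := ch6 hY b h1 h2 hx1 hp hq hs hp hp
  obtain ⟨y, hy, t0, t1, t2, t3, t4, -⟩ := ch6 hY b h1 h2 hx1 hp hq hs hx hp
  exact t4 (b + 3) (b + 3) (by omega)
    ((forced y hy t0 t1 t2 t3).trans (forced x hx r0 r1 r2 r3).symm)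

lemma stay {Y : Set (ℕ → Fin 6)} (hY : Closed Y) (b : ℕ) (h1 : 1 ≤ b) (h2 : b + 4 ≤ 8)
    {p x : ℕ → Fin 6} (hp : p ∈ Y) (hx : x ∈ Y) (mp : p (b + 1) ≠ p (b + 2))
    (r : R (b + 1) x p) : x (b + 2) = x (b + 1) := by
  by_contra h
  exact lemA hY b h1 h2 hx hp (Ne.symm h) mp (r _ _ (by omega)) (r _ _ (by omega))
    (r _ _ (by omega)) (r _ _ (by omega))

lemma lemB {Y : Set (ℕ → Fin 6)} (hY : Closed Y) (b : ℕ) (h1 : 1 ≤ b) (h2 : b + 5 ≤ 8)
    {p : ℕ → Fin 6} (hp : p ∈ Y) : p (b + 2) = p (b + 1) := by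
  by_contra mp
  replace mp : p (b + 1) ≠ p (b + 2) := Ne.symm mp
  have h2' : b + 4 ≤ 8 := by omega
  have out : ∀ x : ℕ → Fin 6, R (b + 1) x p → x (b + 2) ≠ p (b + 1) ∧ x (b + 2) ≠ p (b + 2) :=
    fun x k => ⟨k _ _ (by omega), k _ _ (by omega)⟩
  have d0 : ∀ x ∈ Y, ∀ y ∈ Y, R (b + 1) x p → R (b + 1) y p → R b x y → x (b + 2) ≠ y (b + 2) := by
    intro x hx y hy kx ky k
    rw [stay hY b h1 h2' hp hx mp kx, stay hY b h1 h2' hp hy mp ky]
    exact k _ _ (by omega)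
  by_cases hm : ∃ q ∈ Y, R (b + 1) q p ∧ q (b + 2) ≠ q (b + 3)
  · obtain ⟨q, hq, kq, mq⟩ := hm
    have d4 : ∀ x ∈ Y, ∀ y ∈ Y, R (b + 2) x q → R (b + 2) y q → R (b + 4) x y →
        x (b + 2) ≠ y (b + 2) := by
      intro x hx y hy kx ky k
      rw [← stay hY (b + 1) (by omega) h2 hq hx mq kx, ← stay hY (b + 1) (by omega) h2 hq hy mq ky]
      exact k _ _ (by omega)
    obtain ⟨x1, hx1, -, a1, a2, -⟩ := ch6 hY b h1 h2' hp hp hq hp hp hp
    obtain ⟨x2, hx2, b0, b1, b2, -⟩ := ch6 hY b h1 h2' hx1 hp hq hp hp hp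
    obtain ⟨x3, hx3, c0, c1, c2, c3, -⟩ := ch6 hY b h1 h2' hx1 hp hq hx2 hp hp
    obtain ⟨x4, hx4, e0, e1, e2, e3, e4, -⟩ := ch6 hY b h1 h2' hx1 hp hq hx2 hx3 hp
    obtain ⟨_, _⟩ := out q kq
    obtain ⟨_, _⟩ := out x1 a1
    obtain ⟨_, _⟩ := out x2 b1
    obtain ⟨_, _⟩ := out x3 c1
    obtain ⟨_, _⟩ := out x4 e1
    have := a2 (b + 2) (b + 2) (by omega)
    have := b2 (b + 2) (b + 2) (by omega)
    have := c2 (b + 2) (b + 2) (by omega)
    have := e2 (b + 2) (b + 2) (by omega)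
    have := d0 x2 hx2 x1 hx1 b1 a1 b0
    have := d0 x3 hx3 x1 hx1 c1 a1 c0
    have := d0 x4 hx4 x1 hx1 e1 a1 e0
    have := c3 (b + 2) (b + 2) (by omega)
    have := e3 (b + 2) (b + 2) (by omega)
    have := d4 x4 hx4 x3 hx3 e2 c2 e4
    apply pig (p (b + 1)) (p (b + 2)) (q (b + 2)) (x1 (b + 2)) (x2 (b + 2)) (x3 (b + 2))
      (x4 (b + 2)) <;> first | assumption | exact Ne.symm ‹_›
  · push Not at hm
    obtain ⟨x1, hx1, -, a1, -⟩ := ch6 hY b h1 h2' hp hp hp hp hp hp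
    obtain ⟨x2, hx2, b0, b1, -⟩ := ch6 hY b h1 h2' hx1 hp hp hp hp hp
    obtain ⟨x3, hx3, c0, c1, c2, -⟩ := ch6 hY b h1 h2' hx1 hp hx2 hp hp hp
    obtain ⟨x4, hx4, e0, e1, e2, e3, -⟩ := ch6 hY b h1 h2' hx1 hp hx2 hx3 hp hp
    obtain ⟨x5, hx5, f0, f1, f2, f3, f4, -⟩ := ch6 hY b h1 h2' hx1 hp hx2 hx3 hx4 hp
    obtain ⟨_, _⟩ := out x1 a1
    obtain ⟨_, _⟩ := out x2 b1
    obtain ⟨_, _⟩ := out x3 c1
    obtain ⟨_, _⟩ := out x4 e1
    obtain ⟨_, _⟩ := out x5 f1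
    have := d0 x2 hx2 x1 hx1 b1 a1 b0
    have := d0 x3 hx3 x1 hx1 c1 a1 c0
    have := d0 x4 hx4 x1 hx1 e1 a1 e0
    have := d0 x5 hx5 x1 hx1 f1 a1 f0
    have := c2 (b + 2) (b + 2) (by omega)
    have := e2 (b + 2) (b + 2) (by omega)
    have := f2 (b + 2) (b + 2) (by omega)
    have := e3 (b + 2) (b + 2) (by omega)
    have := f3 (b + 2) (b + 2) (by omega)
    have : x5 (b + 2) ≠ x4 (b + 2) := by
      rw [hm x5 hx5 f1, hm x4 hx4 e1]; exact f4 _ _ (by omega)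
    apply pig (p (b + 1)) (p (b + 2)) (x1 (b + 2)) (x2 (b + 2)) (x3 (b + 2))
      (x4 (b + 2)) (x5 (b + 2)) <;> first | assumption | exact Ne.symm ‹_›

lemma not_closed {Y : Set (ℕ → Fin 6)} (hY : Closed Y) {p : ℕ → Fin 6} (hp : p ∈ Y) : False := by
  have s1 : ∀ x ∈ Y, x 3 = x 2 := fun x hx => lemB hY 1 le_rfl (by omega) hx
  have s2 : ∀ x ∈ Y, x 4 = x 3 := fun x hx => lemB hY 2 (by omega) (by omega) hx
  have s3 : ∀ x ∈ Y, x 5 = x 4 := fun x hx => lemB hY 3 (by omega) (by omega) hx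
  have d : ∀ {i x y}, R i x y → 1 ≤ i → i ≤ 6 → x ∈ Y → y ∈ Y → x 2 ≠ y 2 := by
    intro i x y k i1 i2 hx hy
    by_cases h : i ≤ 3
    · exact k _ _ (by omega)
    · rw [← s1 x hx, ← s2 x hx, ← s3 x hx, ← s1 y hy, ← s2 y hy, ← s3 y hy]
      exact k _ _ (by omega)
  have c := fun {r p q s t z : ℕ → Fin 6} => @ch6 Y hY 1 le_rfl (by omega) r p q s t z
  obtain ⟨x1, h1, a0, -⟩ := c hp hp hp hp hp hp
  obtain ⟨x2, h2, b0, b1, -⟩ := c hp h1 hp hp hp hp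
  obtain ⟨x3, h3, c0, c1, c2, -⟩ := c hp h1 h2 hp hp hp
  obtain ⟨x4, h4, e0, e1, e2, e3, -⟩ := c hp h1 h2 h3 hp hp
  obtain ⟨x5, h5, f0, f1, f2, f3, f4, -⟩ := c hp h1 h2 h3 h4 hp
  obtain ⟨x6, h6, g0, g1, g2, g3, g4, g5⟩ := c hp h1 h2 h3 h4 h5
  replace g5 := g5 (by omega)
  have := d a0 (by omega) (by omega) h1 hp
  have := d b0 (by omega) (by omega) h2 hp
  have := d b1 (by omega) (by omega) h2 h1
  have := d c0 (by omega) (by omega) h3 hp
  have := d c1 (by omega) (by omega) h3 h1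
  have := d c2 (by omega) (by omega) h3 h2
  have := d e0 (by omega) (by omega) h4 hp
  have := d e1 (by omega) (by omega) h4 h1
  have := d e2 (by omega) (by omega) h4 h2
  have := d e3 (by omega) (by omega) h4 h3
  have := d f0 (by omega) (by omega) h5 hp
  have := d f1 (by omega) (by omega) h5 h1
  have := d f2 (by omega) (by omega) h5 h2
  have := d f3 (by omega) (by omega) h5 h3
  have := d f4 (by omega) (by omega) h5 h4
  have := d g0 (by omega) (by omega) h6 hp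
  have := d g1 (by omega) (by omega) h6 h1
  have := d g2 (by omega) (by omega) h6 h2
  have := d g3 (by omega) (by omega) h6 h3
  have := d g4 (by omega) (by omega) h6 h4
  have := d g5 (by omega) (by omega) h6 h5
  apply pig (x6 2) (x5 2) (x4 2) (x3 2) (x2 2) (x1 2) (p 2) <;> assumption

lemma exists_par : ∃ par : ℕ → ℕ → ℕ, (∀ i x, 0 < x → par i x < x) ∧
    ∀ f : Fin 9 → ℕ, ∃ x, 0 < x ∧ ∀ i : Fin 9, par i x = f i := by
  classical
  obtain ⟨enc, henc⟩ := exists_injective_nat ((Fin 9 → ℕ) × ℕ)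
  refine ⟨fun i x => if h : i < 9 then (if (Function.invFun enc x).1 ⟨i, h⟩ < x then
    (Function.invFun enc x).1 ⟨i, h⟩ else 0) else 0, fun i x hx => ?_, fun f => ?_⟩
  · dsimp only
    split_ifs <;> assumption
  · have hinf : (Set.range fun k => enc (f, k)).Infinite :=
      Set.infinite_range_of_injective fun a b h => (Prod.ext_iff.1 (henc h)).2
    obtain ⟨_, ⟨k, rfl⟩, hk⟩ := hinf.exists_gt (Finset.univ.sup f)
    replace hk : Finset.univ.sup f < enc (f, k) := hk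
    refine ⟨enc (f, k), by omega, fun i => ?_⟩
    have h1 : f i ≤ Finset.univ.sup f := Finset.le_sup (Finset.mem_univ i)
    simp only [i.isLt, dite_true, Function.leftInverse_invFun henc (f, k), Fin.eta]
    rw [if_pos (by omega)]

lemma exists_lev (par : ℕ → ℕ → ℕ)
    (h : ∀ f : Fin 9 → ℕ, ∃ x, 0 < x ∧ ∀ i : Fin 9, par i x = f i) :
    ∃ lev : ℕ → ℕ, Monotone lev ∧ 0 < lev 0 ∧ ∀ m, ∀ f : Fin 9 → ℕ, (∀ i, f i < lev m) →
      ∃ x < lev (m + 1), 0 < x ∧ ∀ i : Fin 9, par i x = f i := by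
  choose X hX using h
  let nx : ℕ → ℕ := fun n => n + 1 + Finset.univ.sup fun g : Fin 9 → Fin n => X fun i => (g i).val
  refine ⟨fun m => nx^[m] 1, monotone_nat_of_le_succ fun m => ?_, Nat.one_pos, fun m f hf => ?_⟩
  · rw [Function.iterate_succ_apply']
    simp only [nx]; omega
  · refine ⟨X f, ?_, hX f⟩
    show X f < nx^[m + 1] 1
    rw [Function.iterate_succ_apply']
    have := Finset.le_sup (f := fun g : Fin 9 → Fin (nx^[m] 1) => X fun i => (g i).val)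
      (Finset.mem_univ fun i => (⟨f i, hf i⟩ : Fin (nx^[m] 1)))
    exact lt_of_le_of_lt this (by simp only [nx]; omega)

def tree (N : ℕ) (p : ℕ → ℕ) (hp : ∀ x, 0 < x → p x < x) : SimpleGraph (Fin N) where
  Adj u v := (0 < u.val ∧ p u = v) ∨ (0 < v.val ∧ p v = u)
  symm := ⟨fun _ _ h => h.symm⟩
  loopless := ⟨fun u h => by have := hp u; omega⟩

lemma tree_isTree (N : ℕ) (p : ℕ → ℕ) (hp : ∀ x, 0 < x → p x < x) :
    (tree (N + 1) p hp).IsTree := by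
  rw [SimpleGraph.isTree_iff_connected_and_card]
  constructor
  · have : ∀ n (u : Fin (N + 1)), u.val = n → (tree (N + 1) p hp).Reachable u 0 := by
      intro n
      induction n using Nat.strong_induction_on with
      | _ n ih =>
        intro u hu
        by_cases h : u.val = 0
        · rw [show u = 0 from Fin.ext h]
        · have h1 := hp u (by omega)
          have h2 : (tree (N + 1) p hp).Adj u ⟨p u, by omega⟩ := Or.inl ⟨by omega, rfl⟩
          exact h2.reachable.trans (ih (p u) (by omega) _ rfl)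
    exact ⟨fun u v => (this _ u rfl).trans (this _ v rfl).symm⟩
  · let F : Fin N → (tree (N + 1) p hp).edgeSet := fun a =>
      ⟨s(a.succ, ⟨p (a.val + 1), by have := hp (a.val + 1) (by omega); omega⟩),
        Or.inl ⟨Nat.succ_pos _, rfl⟩⟩
    have hF : Function.Bijective F := by
      constructor
      · intro a b hab
        have := congrArg Subtype.val hab
        simp only [F, Sym2.eq_iff, Fin.ext_iff, Fin.val_succ] at this
        have ha := hp (a.val + 1) (by omega)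
        have hb := hp (b.val + 1) (by omega)
        exact Fin.ext (by omega)
      · rintro ⟨e, he⟩
        induction e using Sym2.ind with
        | _ u v =>
          replace he : (0 < u.val ∧ p u = v) ∨ (0 < v.val ∧ p v = u) := he
          rcases he with h | h
          · refine ⟨⟨u.val - 1, by omega⟩, Subtype.ext ?_⟩
            simp only [F, Sym2.eq_iff, Fin.ext_iff, Fin.val_succ]
            rw [show u.val - 1 + 1 = u.val by omega]
            exact Or.inl ⟨rfl, h.2⟩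
          · refine ⟨⟨v.val - 1, by omega⟩, Subtype.ext ?_⟩
            simp only [F, Sym2.eq_iff, Fin.ext_iff, Fin.val_succ]
            rw [show v.val - 1 + 1 = v.val by omega]
            exact Or.inr ⟨rfl, h.2⟩
    rw [← Nat.card_congr (Equiv.ofBijective F hF)]
    simp

lemma snap_adj {V : Type} {T : ℕ} (G : Fin T → SimpleGraph V) (j : ℕ) (u v : V)
    (h : (snap G j).Adj u v) : ∃ i : Fin T, i.val + 1 = j ∧ (G i).Adj u v := by
  unfold snap at h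
  split_ifs at h with h1
  · exact ⟨⟨j - 1, by omega⟩, by simp only; omega, h⟩
  · exact h.elim

lemma eight {V : Type} {T : ℕ} (G : Fin T → SimpleGraph V) (hG : ∀ i, (G i).IsTree) :
    TempCol G 8 := by
  have hb := fun i => (hG i).colorable_two
  let b : ℕ → V → Fin 2 := fun j x => if h : 1 ≤ j ∧ j ≤ T then (hb ⟨j - 1, by omega⟩).some x else 0
  let e : (Fin 3 → Fin 2) ≃ Fin 8 := Fintype.equivFinOfCardEq (by simp)
  let c : ℕ → V → Fin 8 := fun j x => e fun r => b (j - 1 + (r.val + 3 - (j - 1) % 3) % 3) x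
  have key : ∀ i s t u v, (snap G i).Adj u v → 1 ≤ s → 1 ≤ t → i ≤ s + 1 → s ≤ i + 1 →
      i ≤ t + 1 → t ≤ i + 1 → c s u ≠ c t v := by
    intro i s t u v h s1 t1 a1 a2 a3 a4 hc
    obtain ⟨i', rfl, h'⟩ := snap_adj G i u v h
    have := congrFun (e.injective hc) ⟨(i'.val + 1) % 3, by omega⟩
    simp only at this
    rw [show s - 1 + ((i'.val + 1) % 3 + 3 - (s - 1) % 3) % 3 = i'.val + 1 by omega,
      show t - 1 + ((i'.val + 1) % 3 + 3 - (t - 1) % 3) % 3 = i'.val + 1 by omega] at this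
    have hi : 1 ≤ i'.val + 1 ∧ i'.val + 1 ≤ T := ⟨by omega, i'.isLt⟩
    simp only [b, hi, and_self, dite_true] at this
    exact (hb i').some.valid h' this
  refine ⟨c, fun j j1 _ u v h => ?_, fun j j1 _ u v h => ?_⟩
  · rcases h with (h | h) | h <;> exact key _ j j u v h j1 j1 (by omega) (by omega) (by omega) (by omega)
  · rcases h with h | h <;>
    exact ⟨key _ _ _ u v h j1 j1 (by omega) (by omega) (by omega) (by omega),
      key _ _ _ u v h (by omega) (by omega) (by omega) (by omega) (by omega) (by omega),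
      key _ _ _ u v h (by omega) (by omega) (by omega) (by omega) (by omega) (by omega),
      key _ _ _ u v h (by omega) (by omega) (by omega) (by omega) (by omega) (by omega)⟩

lemma window {V : Type} {k : ℕ} (G : Fin 8 → SimpleGraph V) (c : ℕ → V → Fin k)
    (h1 : ∀ j, 1 ≤ j → j ≤ 8 → Proper (snap G (j - 1) ⊔ snap G j ⊔ snap G (j + 1)) (c j))
    (h2 : ∀ j, 1 ≤ j → j + 1 ≤ 8 → Compat (snap G j ⊔ snap G (j + 1)) (c j) (c (j + 1)))
    (i : ℕ) (u v : V) (h : (snap G i).Adj u v) (s t : ℕ)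
    (w : 1 ≤ s ∧ s ≤ 8 ∧ 1 ≤ t ∧ t ≤ 8 ∧ i ≤ s + 1 ∧ s ≤ i + 1 ∧ i ≤ t + 1 ∧ t ≤ i + 1 ∧
      s ≤ t + 1 ∧ t ≤ s + 1) : c s u ≠ c t v := by
  rcases (by omega : t = s ∨ t = s + 1 ∨ s = t + 1) with rfl | rfl | rfl
  · refine h1 t (by omega) (by omega) u v ?_
    rcases (by omega : i = t - 1 ∨ i = t ∨ i = t + 1) with rfl | rfl | rfl
    · exact Or.inl (Or.inl h)
    · exact Or.inl (Or.inr h)
    · exact Or.inr h
  · refine (h2 s (by omega) (by omega) u v ?_).2.2.1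
    rcases (by omega : i = s ∨ i = s + 1) with rfl | rfl
    · exact Or.inl h
    · exact Or.inr h
  · refine (h2 t (by omega) (by omega) u v ?_).2.2.2
    rcases (by omega : i = t ∨ i = t + 1) with rfl | rfl
    · exact Or.inl h
    · exact Or.inr h

lemma stab {α : Type} [Fintype α] (Z : ℕ → Finset α) (hZ : Monotone Z) :
    ∃ m ≤ Fintype.card α, Z (m + 1) ⊆ Z m := by
  by_contra h
  push Not at h
  have : ∀ m ≤ Fintype.card α + 1, m ≤ (Z m).card := by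
    intro m
    induction m with
    | zero => intro _; omega
    | succ m ih =>
      intro hm
      have h1 := ih (by omega)
      have h2 : (Z m).card < (Z (m + 1)).card :=
        Finset.card_lt_card ⟨hZ (Nat.le_succ m), h m (by omega)⟩
      omega
  have h3 := this _ le_rfl
  have h4 := Finset.card_le_univ (Z (Fintype.card α + 1))
  omega

theorem result : ∃ (T N : ℕ) (G : Fin T → SimpleGraph (Fin N)),
    (∀ i, (G i).IsTree) ∧ (chi G = 7 ∨ chi G = 8) := by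
  classical
  obtain ⟨par, hpar, hall⟩ := exists_par
  obtain ⟨lev, hmono, h0, hlev⟩ := exists_lev par hall
  obtain ⟨L, hL⟩ : ∃ L, L = Fintype.card (Fin 9 → Fin 6) := ⟨_, rfl⟩
  obtain ⟨N, hN⟩ : ∃ N, lev (L + 1) = N + 1 :=
    ⟨lev (L + 1) - 1, by have := hmono (Nat.zero_le (L + 1)); omega⟩
  let G : Fin 8 → SimpleGraph (Fin (N + 1)) := fun i => tree (N + 1) (par (i.val + 1)) (hpar _)
  have hG : ∀ i, (G i).IsTree := fun i => tree_isTree _ _ _
  have h8 : TempCol G 8 := eight G hG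
  have h6 : ¬ TempCol G 6 := by
    rintro ⟨c, h1, h2⟩
    let c' : ℕ → ℕ → Fin 6 := fun x t => if h : x < N + 1 then c t ⟨x, h⟩ else 0
    obtain ⟨m, hm, hsub⟩ := stab (fun m => (Finset.range (lev m)).image
      fun x => fun t : Fin 9 => c' x t.val)
      (fun a b hab => Finset.image_subset_image (Finset.range_subset_range.2 (hmono hab)))
    have hm1 : lev (m + 1) ≤ N + 1 := hN ▸ hmono (by omega)
    have hm0 : lev m ≤ lev (m + 1) := hmono (Nat.le_succ m)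
    refine not_closed (Y := {y | ∃ x < lev m, ∀ t ≤ 8, y t = c' x t}) (p := c' 0) ?_
      ⟨0, lt_of_lt_of_le h0 (hmono (Nat.zero_le m)), fun _ _ => rfl⟩
    intro p hp
    choose f hf hf' using hp
    obtain ⟨x, hx, hx0, hxp⟩ := hlev m (fun i => f i.val) (fun i => hf i.val)
    refine ⟨c' x, ?_, fun i i1 i2 s t w => ?_⟩
    · have := hsub (Finset.mem_image_of_mem _ (Finset.mem_range.2 hx))
      obtain ⟨x', hx', he⟩ := Finset.mem_image.1 this
      exact ⟨x', Finset.mem_range.1 hx', fun t ht => (congrFun he ⟨t, by omega⟩).symm⟩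
    · rw [hf' i t (by omega)]
      have a1 : x < N + 1 := by omega
      have a2 : f i < N + 1 := by have := hf i; omega
      simp only [c', a1, a2, dite_true]
      refine window G c h1 h2 i _ _ ?_ s t w
      unfold snap
      rw [dif_pos ⟨i1, i2⟩]
      refine Or.inl ⟨hx0, ?_⟩
      simp only
      rw [show i - 1 + 1 = i by omega]
      exact hxp ⟨i, by omega⟩
  have hk : ∀ k ≤ 6, ¬ TempCol G k := by
    rintro k hk ⟨c, h1, h2⟩
    have inj := Fin.castLE_injective hk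
    refine h6 ⟨fun j x => Fin.castLE hk (c j x), fun j a b u v h => inj.ne (h1 j a b u v h),
      fun j a b u v h => ?_⟩
    obtain ⟨q1, q2, q3, q4⟩ := h2 j a b u v h
    exact ⟨inj.ne q1, inj.ne q2, inj.ne q3, inj.ne q4⟩
  refine ⟨8, N + 1, G, hG, ?_⟩
  have u1 : chi G ≤ 8 := Nat.sInf_le h8
  have u2 : TempCol G (chi G) := Nat.sInf_mem (s := {k | TempCol G k}) ⟨8, h8⟩
  have u3 : ¬ chi G ≤ 6 := fun h => hk _ h u2
  omega

end Pool.Agent.Results.MP_e33ffa_co.SevenColours
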